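import Pool.Agent.Q46.UP.Core

/-! # A universal partial word of diamondicity 3

There is a non-trivial universal partial word for `{0,1}^12` all of whose windows contain three
wildcards; its length is `2^9 + 11`, and it is cyclic. -/

namespace Pool.Agent.Results.MP_6670e5_co.DiamondicityThree

/-- A partial word of length `L` over the alphabet `{0, …, a-1}` is a function on `{0, …, L-1}`; the
value `none` is the wildcard.  It covers the word `x` of length `n` at position `i` if the window
`w_i … w_(i+n-1)` exists and each of its characters is the wildcard or the letter of `x` at the same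
place. -/
def CoversAt {a n L : ℕ} (w : Fin L → Option (Fin a)) (x : Fin n → Fin a) (i : ℕ) : Prop :=
  ∃ h : i + n ≤ L, ∀ j : Fin n,
    w ⟨i + j, by omega⟩ = none ∨ w ⟨i + j, by omega⟩ = some (x j)

/-- Every word of length `n` is covered at exactly one position. -/
def IsUniversal {a L : ℕ} (n : ℕ) (w : Fin L → Option (Fin a)) : Prop :=
  ∀ x : Fin n → Fin a, ∃! i : ℕ, CoversAt w x i

/-- Every window of length `n` contains exactly `d` wildcards. -/
def HasDiamondicity {a L : ℕ} (n d : ℕ) (w : Fin L → Option (Fin a)) : Prop :=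
  ∀ (i : ℕ) (h : i + n ≤ L), {j : Fin n | w ⟨i + j, by omega⟩ = none}.ncard = d

open Pool.Agent.Q46.UP in
theorem result : ∃ w : Fin 523 → Option (Fin 2),
    IsUniversal 12 w ∧ HasDiamondicity 12 3 w ∧ (∃ i, w i = none) ∧ (∃ i, w i ≠ none) := by
  refine ⟨fun i => uu i.val, ?_, ?_, ⟨0, ?_⟩, ⟨1, ?_⟩⟩
  · intro x
    obtain ⟨i, hi, hu⟩ := unique_cover x
    refine ⟨i.val, ⟨by have := i.isLt; omega, fun j => hi j⟩, ?_⟩
    rintro b ⟨hb, hb2⟩
    have h3 : (⟨b, by omega⟩ : Fin 512) = i := hu _ (fun j => hb2 j)
    rw [← h3]
  · intro i hi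
    have h1 : {j : Fin 12 | uu (i + j) = none} =
        ((Finset.univ.filter fun j : Fin 12 => (i % 4 + j) % 4 = 0 : Finset (Fin 12)) :
          Set (Fin 12)) := by
      ext j
      simp only [Set.mem_ofPred_eq, Finset.coe_filter, Finset.mem_univ, true_and]
      rw [uu_none]
      omega
    show {j : Fin 12 | uu (i + j) = none}.ncard = 3
    rw [h1, Set.ncard_coe_finset]
    have h4 : i % 4 < 4 := Nat.mod_lt _ (by norm_num)
    generalize i % 4 = r at h4
    interval_cases r <;> decide
  · decide +kernel
  · decide +kernel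

end Pool.Agent.Results.MP_6670e5_co.DiamondicityThree
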